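import Pool.Agent.H41.PS.Stm

set_option autoImplicit false

/-! LEAF: the test `leaf` detects four points with the same sum and the same sum of values. -/

namespace Pool.Agent.H784.PS

open Pool.Agent.H41.PS

theorem ALL_eq : ALL = 2 ^ 8192 - 1 := by decide +kernel

theorem ALL_testBit (i : ℕ) (hi : i < 8192) : ALL.testBit i = true := by
  rw [ALL_eq, Nat.testBit_two_pow_sub_one]
  exact decide_eq_true hi

theorem leaf_eq (X Z : ℕ) : leaf X Z =
    (Bool.rec false (lt ((X &&& Z) &&& (((X ^^^ Z) <<< 4096) ^^^ ALL)))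
      (lt ((X &&& Z) &&& (((X ^^^ Z) <<< 4096) ||| LOW))) : Bool) := by
  unfold leaf
  rw [fc_eq]
  rfl

theorem leaf_of_left {X Z : ℕ}
    (h : lt ((X &&& Z) &&& (((X ^^^ Z) <<< 4096) ||| LOW)) = false) : leaf X Z = false := by
  rw [leaf_eq, h]

theorem leaf_of_right {X Z : ℕ}
    (h : lt ((X &&& Z) &&& (((X ^^^ Z) <<< 4096) ^^^ ALL)) = false) : leaf X Z = false := by
  rw [leaf_eq, h]
  cases lt ((X &&& Z) &&& (((X ^^^ Z) <<< 4096) ||| LOW)) <;> rfl

theorem bit_hi (X Z l x : ℕ) (e : Bool)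
    (h : (X.testBit (1024 * l + x) ^^ Z.testBit (1024 * l + x)) = e) :
    ((X ^^^ Z) <<< 4096).testBit (1024 * (4 + l) + x) = e := by
  have h1 : 1024 * (4 + l) + x = 1024 * l + x + 4096 := by ring
  rw [h1, Nat.testBit_shiftLeft, Nat.add_sub_cancel, Nat.testBit_xor, h]
  simp

theorem t_LEAF : S_LT → S_LEAF := by
  intro hLT X Z l e a b c d hX hZ hl ha hb hc hd hab hac had hbc hbd hcd hx hf h
  have hA : X &&& Z < 2 ^ 8192 := lt_of_le_of_lt Nat.and_le_left hX
  have hidx : ∀ x, 4096 + 1024 * l + x = 1024 * (4 + l) + x := fun x => by ring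
  have hAb : ∀ x ∈ ({a, b, c, d} : Set ℕ), (X &&& Z).testBit (1024 * (4 + l) + x) = true := by
    intro x hx'
    obtain ⟨h1, h2, _⟩ := h x hx'
    rw [Nat.testBit_and, ← hidx, h1, h2]
    rfl
  cases e with
  | true =>
    apply leaf_of_left
    have key : ∀ x ∈ ({a, b, c, d} : Set ℕ),
        ((X &&& Z) &&& (((X ^^^ Z) <<< 4096) ||| LOW)).testBit (1024 * (4 + l) + x) = true := by
      intro x hx'
      rw [Nat.testBit_and, Nat.testBit_or, hAb x hx', bit_hi X Z l x true (h x hx').2.2]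
      rfl
    exact hLT _ (4 + l) a b c d (lt_of_le_of_lt Nat.and_le_left hA) (by omega) (by omega)
      ha hb hc hd (key a (by simp)) (key b (by simp)) (key c (by simp)) (key d (by simp))
      hab hac had hbc hbd hcd hx hf
  | false =>
    apply leaf_of_right
    have key : ∀ x ∈ ({a, b, c, d} : Set ℕ), x < 1024 →
        ((X &&& Z) &&& (((X ^^^ Z) <<< 4096) ^^^ ALL)).testBit (1024 * (4 + l) + x) = true := by
      intro x hx' hx1
      rw [Nat.testBit_and, Nat.testBit_xor, hAb x hx', bit_hi X Z l x false (h x hx').2.2,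
        ALL_testBit _ (by omega)]
      rfl
    exact hLT _ (4 + l) a b c d (lt_of_le_of_lt Nat.and_le_left hA) (by omega) (by omega)
      ha hb hc hd (key a (by simp) ha) (key b (by simp) hb) (key c (by simp) hc)
      (key d (by simp) hd) hab hac had hbc hbd hcd hx hf

end Pool.Agent.H784.PS
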